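import Pool.Agent.W851.BE.Stm

/-!
# Project BE, part NBIG: large discs
-/

open Polynomial Topology Filter MeasureTheory
open scoped ENNReal

namespace Pool.Agent.W789.BE.NBIG

open Pool.Agent.W95.BK Pool.Agent.W851.BE

universe u

lemma vI_zero {K : Type u} [NontriviallyNormedField K] (f : RMap K) (r : ℝ) (i : ℕ) :
    vI f 0 r i = max ‖f.P.coeff i‖ (r * ‖f.Q.coeff i‖) * r ^ i := by
  unfold vI
  simp

theorem main : S_NBIG.{u} := by
  intro K _ _ _ f hQ
  have hP : f.P.coeff f.d ≠ 0 := by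
    have h1 := f.deg_eq
    have h2 := f.pos
    rcases le_total f.Q.natDegree f.P.natDegree with h | h
    · rw [max_eq_left h] at h1
      have h3 : f.P ≠ 0 := by
        intro h4
        rw [h4, natDegree_zero] at h1
        omega
      rw [← h1]
      exact leadingCoeff_ne_zero.2 h3
    · rw [max_eq_right h] at h1
      exfalso
      have h3 : f.Q ≠ 0 := by
        intro h4
        rw [h4, natDegree_zero] at h1
        omega
      rw [← h1] at hQ
      exact leadingCoeff_ne_zero.2 h3 hQ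
  have hPn : 0 < ‖f.P.coeff f.d‖ := norm_pos_iff.2 hP
  set B : ℝ := ∑ i ∈ Finset.range (f.d + 1), (‖f.P.coeff i‖ + ‖f.Q.coeff i‖) with hB
  have hB0 : 0 ≤ B := Finset.sum_nonneg fun i _ => by positivity
  have hBi : ∀ i ≤ f.d, ‖f.P.coeff i‖ ≤ B ∧ ‖f.Q.coeff i‖ ≤ B := by
    intro i hi
    have h1 : ‖f.P.coeff i‖ + ‖f.Q.coeff i‖ ≤ B :=
      Finset.single_le_sum (f := fun i => ‖f.P.coeff i‖ + ‖f.Q.coeff i‖)
        (fun i _ => by positivity) (Finset.mem_range.2 (by omega))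
    have h2 := norm_nonneg (f.P.coeff i)
    have h3 := norm_nonneg (f.Q.coeff i)
    constructor <;> linarith
  set r : ℝ := B / ‖f.P.coeff f.d‖ + 1 with hr
  have hr1 : 1 ≤ r := by
    have : 0 ≤ B / ‖f.P.coeff f.d‖ := by positivity
    linarith
  have hr0 : 0 < r := by linarith
  have hBr : B < ‖f.P.coeff f.d‖ * r := by
    rw [hr, mul_add, mul_div_cancel₀ _ hPn.ne']
    linarith
  refine ⟨r, hr0, ?_⟩
  have hne : (Finset.range (f.d + 1)).Nonempty := ⟨0, by simp⟩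
  have hset : ({i | i ≤ f.d ∧ vI f 0 r i = Mx f 0 r} : Set ℕ).Nonempty := by
    obtain ⟨i, hi, h⟩ := Finset.exists_mem_eq_sup' hne (vI f 0 r)
    exact ⟨i, by have := Finset.mem_range.1 hi; omega, h.symm⟩
  have hmem : Nw f 0 r ∈ ({i | i ≤ f.d ∧ vI f 0 r i = Mx f 0 r} : Set ℕ) := Nat.sInf_mem hset
  obtain ⟨hle, heq⟩ := hmem
  have hd : vI f 0 r f.d ≤ Mx f 0 r :=
    Finset.le_sup' (vI f 0 r) (Finset.mem_range.2 (Nat.lt_succ_self _))
  by_contra hlt
  push Not at hlt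
  have h2 : Nw f 0 r + 2 ≤ f.d := by omega
  obtain ⟨b1, b2⟩ := hBi _ hle
  have h3 : vI f 0 r (Nw f 0 r) ≤ B * r ^ (f.d - 1) := by
    rw [vI_zero]
    have h4 : max ‖f.P.coeff (Nw f 0 r)‖ (r * ‖f.Q.coeff (Nw f 0 r)‖) ≤ B * r := by
      apply max_le
      · calc ‖f.P.coeff (Nw f 0 r)‖ ≤ B := b1
          _ = B * 1 := (mul_one _).symm
          _ ≤ B * r := by gcongr
      · calc r * ‖f.Q.coeff (Nw f 0 r)‖ ≤ r * B := by gcongr
          _ = B * r := mul_comm _ _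
    calc max ‖f.P.coeff (Nw f 0 r)‖ (r * ‖f.Q.coeff (Nw f 0 r)‖) * r ^ (Nw f 0 r)
        ≤ (B * r) * r ^ (Nw f 0 r) := by gcongr
      _ = B * r ^ (Nw f 0 r + 1) := by ring
      _ ≤ B * r ^ (f.d - 1) := by
          gcongr
          omega
  have h4 : B * r ^ (f.d - 1) < vI f 0 r f.d := by
    rw [vI_zero]
    calc B * r ^ (f.d - 1) < (‖f.P.coeff f.d‖ * r) * r ^ (f.d - 1) := by gcongr
      _ = ‖f.P.coeff f.d‖ * r ^ f.d := by
          rw [mul_assoc, ← pow_succ', Nat.sub_add_cancel f.pos]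
      _ ≤ max ‖f.P.coeff f.d‖ (r * ‖f.Q.coeff f.d‖) * r ^ f.d := by
          gcongr
          exact le_max_left _ _
  rw [heq] at h3
  linarith

end Pool.Agent.W789.BE.NBIG
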